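import Pool.Agent.H645R2.C3.Comp

/-!
A computable colouring of the natural numbers with 3 colours all of whose infinite homogeneous
sets for sums of at most two distinct elements compute the halting problem.
-/

namespace Pool.Agent.Results.MP_a0596c_lc.ThreeColoursTwoSums

open Pool.Agent.H645R2.C3

/-- The characteristic function of a set of natural numbers, as a (total) partial function. -/
noncomputable def char (B : Set ℕ) : ℕ →. ℕ := by
  classical exact fun n => Part.some (if n ∈ B then 1 else 0)

/-- There is a computable colouring `c` of the natural numbers with `3` colours such that every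
infinite set `X` of natural numbers, all of whose sums of at most two distinct elements get the
same colour, computes every computably enumerable set (equivalently, computes `0'`). -/
theorem result :
    ∃ c : ℕ → Fin 3, Computable c ∧
      ∀ X : Set ℕ, X.Infinite →
        (∃ i, ∀ F : Finset ℕ, (F : Set ℕ) ⊆ X → F.Nonempty → F.card ≤ 2 →
          c (∑ n ∈ F, n) = i) →
        ∀ p : ℕ → Prop, REPred p → TuringReducible (char {n | p n}) (char X) := by
  classical
  have hlt : ∀ n, col W0 n < 3 := fun n => Nat.mod_lt _ (by norm_num)
  refine ⟨fun n => ⟨col W0 n, hlt n⟩, ?_, ?_⟩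
  · refine Pool.Agent.Helper446.RE.computable_of_graph ?_
    have h1 : REPred fun x : ℕ × Fin 3 => col W0 x.1 = x.2.val :=
      Pool.Agent.Helper446.RE.eq ((c_col c_W0).comp (g := fun x : ℕ × Fin 3 => x.1) (by fun_prop))
        (Primrec.fin_val.to_comp.comp Computable.snd)
    refine h1.of_eq fun x => ?_
    rw [Fin.ext_iff]
  · rintro X hinf ⟨i, hi⟩ p hp
    have hc : ∀ x ∈ X, ∀ y ∈ X, 0 < x → 0 < y → x ≠ y → col W0 x = col W0 (x + y) := by
      intro x hx y hy _ _ hxy
      have e1 := hi {x} (by simpa using hx) (by simp) (by simp)
      have e2 := hi {x, y} (by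
        intro w hw
        simp only [Finset.coe_insert, Finset.coe_singleton, Set.mem_insert_iff,
          Set.mem_singleton_iff] at hw
        rcases hw with rfl | rfl <;> assumption) (by simp) (by
        rw [Finset.card_pair hxy])
      rw [Finset.sum_singleton] at e1
      rw [Finset.sum_pair hxy] at e2
      have e3 := e1.trans e2.symm
      exact congrArg Fin.val e3
    obtain ⟨k1, k2⟩ := computes hinf hc
    obtain ⟨e, he⟩ := univ_W0 hp
    have h1 : Pool.Agent.Helper446.Oracle.REIn X (fun n => n ∈ {n | p n}) :=
      (k1.comp (f := fun n : ℕ => Nat.pair e n) (by fun_prop)).of_eq fun n => (he n).symm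
    have h2 : Pool.Agent.Helper446.Oracle.REIn X (fun n => n ∉ {n | p n}) :=
      (k2.comp (f := fun n : ℕ => Nat.pair e n) (by fun_prop)).of_eq fun n =>
        not_congr (he n).symm
    exact Pool.Agent.Helper446.Oracle.turingReducible_iff.2 ⟨h1, h2⟩

end Pool.Agent.Results.MP_a0596c_lc.ThreeColoursTwoSums
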